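import Pool.Agent.H70.RZT.S
import Pool.Agent.H49.TOW.EXC

/-!
# RZT, EXCN: there is a completion above every prime
-/

set_option autoImplicit false

namespace Pool.RZT

open Polynomial Matrix NumberField IsDedekindDomain Pool.HYP Pool.TOW Pool.AVS Pool.T1 Pool.NF
  WithZero IsLocalRing

/-- The same without the place at infinity. -/
theorem excGen (hZVAL : ZVALStmt) (R : Type) [CommRing R] [IsDedekindDomain R] (K : Type)
    [Field K] [Algebra R K] [IsFractionRing R K] (P : HeightOneSpectrum R)
    (hRfin : Finite (R ⧸ P.asIdeal)) (E : Type) [Field E] [Algebra K E]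
    (hfd : FiniteDimensional K E) (hgal : IsGalois K E) :
    ∃ (L : Type) (_ : Field L) (O' : ValuationSubring L) (ι : E →+* L),
      AbvV E (vP K P) L O' ι := by
  let _ : Algebra R E := ((algebraMap K E).comp (algebraMap R K)).toAlgebra
  have hst : IsScalarTower R K E := IsScalarTower.of_algebraMap_eq fun x => rfl
  have hded : IsDedekindDomain (integralClosure R E) := integralClosure.isDedekindDomain R K E
  have hfr : IsFractionRing (integralClosure R E) E :=
    integralClosure.isFractionRing_of_finite_extension K E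
  have hmf : Module.Finite R (integralClosure R E) :=
    IsIntegralClosure.finite R K E (integralClosure R E)
  have hinjE : Function.Injective (algebraMap R E) :=
    (algebraMap K E).injective.comp (IsFractionRing.injective R K)
  have hfaith : FaithfulSMul R E := by
    rw [faithfulSMul_iff_algebraMap_injective]
    exact hinjE
  have hPmax : P.asIdeal.IsMaximal := P.isMaximal
  obtain ⟨Q, hQmax, hQ⟩ := Ideal.exists_maximal_ideal_liesOver_of_isIntegral
    (S := integralClosure R E) P.asIdeal
  have hinj : Function.Injective (algebraMap R (integralClosure R E)) :=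
    FaithfulSMul.algebraMap_injective _ _
  have hQP : ∀ a ∈ P.asIdeal, algebraMap R (integralClosure R E) a ∈ Q := by
    intro a ha
    rw [hQ.over] at ha
    exact ha
  obtain ⟨a₀, ha₀, ha₀0⟩ := Submodule.exists_mem_ne_zero_of_ne_bot P.ne_bot
  have hQ0 : Q ≠ ⊥ := by
    rintro rfl
    have h1 := hQP a₀ ha₀
    rw [Ideal.mem_bot, map_eq_zero_iff _ hinj] at h1
    exact ha₀0 h1
  let v : HeightOneSpectrum (integralClosure R E) := ⟨Q, hQmax.isPrime, hQ0⟩
  have hfin : Finite (integralClosure R E ⧸ v.asIdeal) := by
    change Finite (integralClosure R E ⧸ Q)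
    have : Module.Finite (R ⧸ P.asIdeal) (integralClosure R E ⧸ Q) := inferInstance
    exact Module.finite_of_finite (R ⧸ P.asIdeal)
  refine ⟨v.adicCompletion E, inferInstance, v.adicCompletionIntegers E,
    algebraMap E (v.adicCompletion E), Exc49.cpl_of E _ v hfin, ?_⟩
  have hv : ∀ x : E, Valued.v (algebraMap E (v.adicCompletion E) x) = v.valuation E x :=
    fun x => HeightOneSpectrum.valuedAdicCompletion_eq_valuation' (v := v) x
  have hmem : ∀ x : K, x ∈ (v.adicCompletionIntegers E).comap
      ((algebraMap E (v.adicCompletion E)).comp (algebraMap K E)) ↔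
      v.valuation E (algebraMap K E x) ≤ 1 := by
    intro x
    rw [← hv]
    exact Iff.rfl
  have hRE : ∀ a : R, algebraMap K E (algebraMap R K a) =
      algebraMap (integralClosure R E) E (algebraMap R (integralClosure R E) a) := fun a => rfl
  have hlt : ∀ a ∈ P.asIdeal, v.valuation E (algebraMap K E (algebraMap R K a)) < 1 := by
    intro a ha
    rw [hRE, v.valuation_lt_one_iff_mem]
    exact hQP a ha
  have hinvn : ∀ a ∈ P.asIdeal, a ≠ 0 → (algebraMap R K a)⁻¹ ∉
      (v.adicCompletionIntegers E).comap
        ((algebraMap E (v.adicCompletion E)).comp (algebraMap K E)) := by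
    intro a ha ha0 hc
    rw [hmem, map_inv₀, map_inv₀] at hc
    have h0 : v.valuation E (algebraMap K E (algebraMap R K a)) ≠ 0 := by
      rw [Valuation.ne_zero_iff, Ne, map_eq_zero, map_eq_zero_iff _ (IsFractionRing.injective R K)]
      exact ha0
    have h8 := (inv_le_one₀ (zero_lt_iff.2 h0)).1 hc
    exact absurd (hlt a ha) (not_lt.2 h8)
  obtain ⟨hz1, hz2, -⟩ := hZVAL R K
  obtain ⟨P', hP'⟩ := hz1 ((v.adicCompletionIntegers E).comap
      ((algebraMap E (v.adicCompletion E)).comp (algebraMap K E)))
    (by
      intro h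
      exact hinvn a₀ ha₀ ha₀0 (h ▸ ValuationSubring.mem_top _))
    (by
      intro a
      rw [hmem, hRE]
      exact v.valuation_le_one _)
  rw [hP']
  have hle : P.asIdeal ≤ P'.asIdeal := by
    intro a ha
    rcases eq_or_ne a 0 with h0 | h0
    · rw [h0]; exact zero_mem _
    · have h1 := hinvn a ha h0
      rw [hP'] at h1
      by_contra hna
      refine h1 ?_
      change (P'.valuation K) (algebraMap R K a)⁻¹ ≤ 1
      have h2 : ¬ P'.valuation K (algebraMap R K a) < 1 := by
        rw [P'.valuation_lt_one_iff_mem]
        exact hna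
      have h3 : P'.valuation K (algebraMap R K a) ≤ 1 := P'.valuation_le_one a
      have h4 : P'.valuation K (algebraMap R K a) = 1 := le_antisymm h3 (not_lt.1 h2)
      rw [map_inv₀, h4, inv_one]
  have heq : P.asIdeal = P'.asIdeal := hPmax.eq_of_le P'.isPrime.ne_top hle
  rw [HeightOneSpectrum.ext heq]


theorem excn (hZVAL : ZVALStmt) : EXCNStmt := by
  intro K _ _ P E _ _ hfd hgal
  exact excGen hZVAL (𝓞 K) K P (Ideal.finiteQuotientOfFreeOfNeBot P.asIdeal P.ne_bot) E hfd hgal

end Pool.RZT
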