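import Pool.Agent.H70.RZT.S
import Pool.Agent.H22.T1.ZON3

/-!
# RZT, row ON3N: the main step
-/

set_option autoImplicit false

namespace Pool.RZT

open Polynomial Matrix NumberField IsDedekindDomain Pool.HYP Pool.TOW Pool.AVS Pool.T1 Pool.NF

namespace On3n

variable {K : Type} [Field K] [NumberField K]

/-- The classes over `E` to which the argument applies. -/
def WWN (E : Type) [Field E] [Algebra K E] (f : (𝓞 K)[X]) (ϖ : HeightOneSpectrum (𝓞 K) → 𝓞 K)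
    (S T' : Finset (HeightOneSpectrum (𝓞 K))) : Set E[X] :=
  {p | p ∈ Z22.WWK (K := K) E 1 f ϖ S T' ∧ Loc2E E f p}

/-- The class of a divisor of the twist is in the set `WWK`. -/
theorem sel_mem (hSPC : SPCNStmt) (hUNC : UNCNStmt) (hLDA : LDANStmt) (hLDB : LDBNStmt)
    {E : Type} [Field E] [Algebra K E] {f : (𝓞 K)[X]} (hf : f.Monic)
    (hfn : f.natDegree = 2 * 1 + 1) (hsm : Smooth f)
    {ϖ : HeightOneSpectrum (𝓞 K) → 𝓞 K} {S T' : Finset (HeightOneSpectrum (𝓞 K))} {d : 𝓞 K}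
    (hϖ : ∀ P : HeightOneSpectrum (𝓞 K), (2 : 𝓞 K) ∉ P.asIdeal →
      ϖ P ∈ P.asIdeal ∧ ϖ P ∉ P.asIdeal ^ 2)
    (h2S : ∀ P ∈ S, (2 : 𝓞 K) ∉ P.asIdeal)
    (h2T' : ∀ P : HeightOneSpectrum (𝓞 K), P ∉ T' → (2 : 𝓞 K) ∉ P.asIdeal)
    (hSsp : ∀ P ∈ S, SplV E (vP K P))
    (hdS : ∀ P ∈ S, d ∈ P.asIdeal ∧ d ∉ P.asIdeal ^ 2)
    (hdr : ∀ P : HeightOneSpectrum (𝓞 K), P ∉ S → P ∉ T' → d ∉ P.asIdeal) :
    ∀ p : E[X], IsCoprime p (fkE K E f) → NSq (fkE K E f) p →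
      (∀ (L : Type) [Field L] (O : ValuationSubring L) (ι : E →+* L), Cpl E L O ι →
        LSDEK (K := K) ι d f p) → p ∈ Z22.WWK (K := K) E 1 f ϖ S T' := by
  intro p hp hN hL
  refine ⟨hp, hN, ?_⟩
  intro L _ O' ι P hC
  refine ⟨fun hPS c γ x hOk hfac hx => ?_, fun hPS hU hr fO hfO => ?_⟩
  · have h1 := hSPC K P (ϖ P) (h2S P hPS) (hϖ P (h2S P hPS)).1 (hϖ P (h2S P hPS)).2 E L O' ι hC
      (hSsp P hPS)
    exact hLDB K 1 P (ϖ P) E L O' ι le_rfl ⟨h1.loc, h1.int, h1.mem⟩ f d p c γ x hf hfn hOk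
      hfac (hdS P hPS).1 (hdS P hPS).2 hp hN (hL L O' ι hC.1) hx
  · have h1 := hUNC K P (ϖ P) (h2T' P hr) (hϖ P (h2T' P hr)).1 (hϖ P (h2T' P hr)).2 E L O' ι hC hU
    exact hLDA K 1 P (ϖ P) E L O' ι h1 f d p hf hfn (hsm P) (hdr P hPS hr) hp hN
      (hL L O' ι hC.1) fO hfO

/-- The choice of the set of primes, with given completions. -/
theorem partA (hLINB : LINBStmt) (hINO : INOKStmt) (hUSM : USMKStmt)
    {Ram : Finset (HeightOneSpectrum (𝓞 K))} (hRec : RecN Ram)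
    (D : DatN K) (Y : ℕ) (hok : D.Ok) (hY : 1 ≤ Y) (hRam : Ram ⊆ D.T') (f : (𝓞 K)[X])
    (hf : f ∈ FamN D Y)
    (hMUL : ∀ α β : K[X], Loc2 f α → Loc2 f β → Loc2 f (α * β))
    (hISO : ∀ α : K[X], Loc2 f α → Dya f α)
    (ϖ : HeightOneSpectrum (𝓞 K) → 𝓞 K)
    (L : HeightOneSpectrum (𝓞 K) → Type) [∀ P, Field (L P)] (O' : ∀ P, ValuationSubring (L P))
    (ι : ∀ P, K →+* L P)
    (hC : ∀ P : HeightOneSpectrum (𝓞 K), (2 : 𝓞 K) ∉ P.asIdeal →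
      CompP P (ϖ P) (L P) (O' P) (ι P)) :
    ∃ S ⊆ D.T, ∃ (c : ∀ P, O' P) (γ : ∀ P, (O' P)[X]),
      (∀ P ∈ D.T, OkL (O' P) 1 (γ P) ∧ (fk K f).map (ι P) = oL (O' P) ((X - C (c P)) * γ P) ∧
      (∀ h : K[X], IsCoprime h (fk K f) →
        (USL (O' P) ((X - C (c P)) * γ P) (h.map (ι P)) ↔ US P.asIdeal f h)) ∧
      (∀ h : K[X], IsCoprime h (fk K f) → TRL (O' P) ((X - C (c P)) * γ P) (h.map (ι P)) →
        TR P.asIdeal f h)) ∧
      ∀ α : K[X], IsCoprime α (fk K f) → NSq (fk K f) α →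
        (∀ P : HeightOneSpectrum (𝓞 K), P ∉ D.T → US P.asIdeal f α) → Loc2 f α →
        ∀ x : HeightOneSpectrum (𝓞 K) → Ty,
          (∀ P ∈ D.T, TyL (O' P) (ι P (algebraMap (𝓞 K) K (ϖ P))) (c P) (γ P) (x P)
            (α.map (ι P))) →
          (∀ P ∈ S, (x P).2 = 0) → (∀ P ∈ D.T, P ∉ S → (x P).1 = 0) →
          (∀ P : HeightOneSpectrum (𝓞 K), US P.asIdeal f α) ∧ ∀ P ∈ D.T, TR P.asIdeal f α := by
  classical
  have hTYM : TYMStmt := tym unr nmu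
  have hTY0 : TY0Stmt := ty0_of unr
  have hTYU : TYUStmt := tyu unr nmu
  have hfm : f.Monic := hf.1
  have hfK : (fk K f).Monic := hfm.map _
  have hg : 1 ≤ 1 := le_rfl
  have h2T : ∀ P ∈ D.T, (2 : 𝓞 K) ∉ P.asIdeal := fun P hP h2 =>
    Finset.disjoint_left.1 hok.1 hP (hok.2.2.2 P (Or.inl h2))
  -- the local data
  have hloc : ∀ P, ∃ (c : O' P) (γ : (O' P)[X]), P ∈ D.T → OkL (O' P) 1 γ ∧
      (fk K f).map (ι P) = oL (O' P) ((X - C c) * γ) ∧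
      (∀ h : K[X], IsCoprime h (fk K f) →
        (USL (O' P) ((X - C c) * γ) (h.map (ι P)) ↔ US P.asIdeal f h)) ∧
      (∀ h : K[X], IsCoprime h (fk K f) → TRL (O' P) ((X - C c) * γ) (h.map (ι P)) →
        TR P.asIdeal f h) := by
    intro P
    by_cases hP : P ∈ D.T
    · obtain ⟨c, γ, h1⟩ := ONEK90.locdata hINO (hC P (h2T P hP)) hg (hok.2.1 P hP) hfm
        (hf.2.2.2.1 P hP)
      exact ⟨c, γ, fun _ => h1⟩
    · exact ⟨0, 0, fun h => absurd h hP⟩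
  choose c γ hdat using hloc
  have hcop : ∀ P ∈ D.T, ∀ α : K[X], IsCoprime α (fk K f) →
      IsCoprime (α.map (ι P)) (oL (O' P) ((X - C (c P)) * γ P)) := by
    intro P hP α hα
    rw [← (hdat P hP).2.1]
    exact One86.cop_map (ι P) hα
  have hnsq : ∀ P ∈ D.T, ∀ α : K[X], NSq (fk K f) α →
      NSq (oL (O' P) ((X - C (c P)) * γ P)) (α.map (ι P)) := by
    intro P hP α hα
    rw [← (hdat P hP).2.1]
    exact One86.nsq_map (ι P) hfK hα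
  -- the set of vectors of types
  set W : Set (HeightOneSpectrum (𝓞 K) → Ty) := {x | ∃ α : K[X],
    IsCoprime α (fk K f) ∧ NSq (fk K f) α ∧
    (∀ P : HeightOneSpectrum (𝓞 K), P ∉ D.T → US P.asIdeal f α) ∧ Loc2 f α ∧
    ∀ P ∈ D.T, TyL (O' P) (ι P (algebraMap (𝓞 K) K (ϖ P))) (c P) (γ P) (x P)
      (α.map (ι P))} with hW
  have hadd : ∀ x ∈ W, ∀ y ∈ W, x + y ∈ W := by
    rintro x ⟨α, hα, hNα, hUα, hLα, hTα⟩ y ⟨β, hβ, hNβ, hUβ, hLβ, hTβ⟩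
    refine ⟨α * β, hα.mul_left hβ, One86.nsq_mul hNα hNβ, fun P h1 =>
      hUSM (𝓞 K) K P.asIdeal f α β (hUα P h1) (hUβ P h1),
      hMUL α β hLα hLβ, fun P hP => ?_⟩
    rw [Polynomial.map_mul]
    exact hTYM _ _ _ (hC P (h2T P hP)).loc 1 (c P) (γ P) hg (hdat P hP).1 _ _ (x P) (y P)
      (hcop P hP α hα) (hcop P hP β hβ) (hnsq P hP α hNα) (hnsq P hP β hNβ) (hTα P hP) (hTβ P hP)
  have hiso : ∀ x ∈ W, ∀ y ∈ W, ∑ P ∈ D.T, ((x P).1 * (y P).2 + (x P).2 * (y P).1) = 0 := by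
    rintro x ⟨α, hα, hNα, hUα, hLα, hTα⟩ y ⟨β, hβ, hNβ, hUβ, hLβ, hTβ⟩
    refine hRec D Y hok hY hRam f hf ϖ L O' ι (fun P hP => hC P (h2T P hP)) c γ
      (fun P hP => ⟨(hdat P hP).1, (hdat P hP).2.1⟩) α β x y ?_ ?_ hTα hTβ
    · intro δ hδ
      rcases hδ with hδ | hδ
      · rw [hδ]
        exact ⟨hα, hNα, hUα⟩
      · rw [Set.mem_singleton_iff.1 hδ]
        exact ⟨hβ, hNβ, hUβ⟩
    · intro δ hδ
      rcases hδ with hδ | hδ | hδ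
      · rw [hδ]
        exact hISO α hLα
      · rw [hδ]
        exact hISO β hLβ
      · rw [Set.mem_singleton_iff.1 hδ]
        exact hISO (α * β) (hMUL α β hLα hLβ)
  obtain ⟨S, hST, hS⟩ := hLINB (HeightOneSpectrum (𝓞 K)) D.T W hadd hiso
  refine ⟨S, hST, c, γ, hdat, ?_⟩
  intro α hα hNα hUα hLα x hx hxS hxT
  have hxW : x ∈ W := ⟨α, hα, hNα, hUα, hLα, hx⟩
  have hx0 : ∀ P ∈ D.T, x P = 0 := hS x hxW hxS hxT
  refine ⟨fun P => ?_, fun P hP => ?_⟩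
  · by_cases hPT : P ∈ D.T
    · refine ((hdat P hPT).2.2.1 α hα).1 ?_
      refine (hTYU _ _ _ (hC P (h2T P hPT)).loc 1 (c P) (γ P) hg (hdat P hPT).1 _ (x P)
        (hcop P hPT α hα) (hnsq P hPT α hNα) (hx P hPT)).2 ?_
      rw [hx0 P hPT]
      rfl
    · exact hUα P hPT
  · refine (hdat P hP).2.2.2 α hα ?_
    refine hTY0 _ _ _ (hC P (h2T P hP)).loc 1 (c P) (γ P) hg (hdat P hP).1 _ (hcop P hP α hα)
      (hnsq P hP α hNα) ?_
    have := hx P hP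
    rw [hx0 P hP] at this
    exact this

end On3n

open On3n in
/-- ON3N: the main step. -/
theorem on3n (hLINB : LINBStmt) (hCMP : CMPNStmt) (hINO : INOKStmt) (hIRU : IRUNStmt)
    (hUSM : USMKStmt) (hIRRN : IRRNStmt) (hL2M : L2MStmt) (hL2D : L2DStmt) (hSPC : SPCNStmt)
    (hUNC : UNCNStmt) (hEXC : EXCNStmt) (hTYI : TYINStmt) (hUDA : UDANStmt) (hUDB : UDBNStmt)
    (hLDA : LDANStmt) (hLDB : LDBNStmt) (hE2T : E2TStmt) (hE2M : E2MStmt) (hE2I : E2IStmt)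
    (hTWS : ZTWSStmt) (hIRS : ZIRSStmt) : ON3NStmt := by
  classical
  intro K _ _ Ram hRec D Y hok hY hRam f hf hsm hbad
  have hCLA : CLAStmt := cla unr
  have hTYM : TYMStmt := tym unr nmu
  have hTYU : TYUStmt := tyu unr nmu
  have hTYQ : TYQStmt := tyq unr
  have hTYS : TYSStmt := tys unr
  have hg : 1 ≤ 1 := le_rfl
  have hfm : f.Monic := hf.1
  have hfn : f.natDegree = 2 * 1 + 1 := hf.2.1
  have hodd : Odd f.natDegree := by
    rw [hfn]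
    exact odd_two_mul_add_one 1
  have hfi : Irreducible (fk K f) := hIRRN K D Y hok f hf
  have h2T' : ∀ P : HeightOneSpectrum (𝓞 K), P ∉ D.T' → (2 : 𝓞 K) ∉ P.asIdeal :=
    fun P hP h2 => hP (hok.2.2.2 P (Or.inl h2))
  have h2T : ∀ P ∈ D.T, (2 : 𝓞 K) ∉ P.asIdeal := fun P hP =>
    h2T' P (Finset.disjoint_left.1 hok.1 hP)
  have hex : ∀ P : HeightOneSpectrum (𝓞 K), ∃ (ϖ : 𝓞 K) (L : Type) (_ : Field L)
      (O' : ValuationSubring L) (ι : K →+* L), (2 : 𝓞 K) ∉ P.asIdeal →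
      ϖ ∈ P.asIdeal ∧ ϖ ∉ P.asIdeal ^ 2 ∧ CompP P ϖ L O' ι := by
    intro P
    by_cases h2 : (2 : 𝓞 K) ∈ P.asIdeal
    · exact ⟨0, K, inferInstance, ⊤, RingHom.id K, fun h => absurd h2 h⟩
    · obtain ⟨ϖ, L, F, O', ι, h⟩ := hCMP K P h2
      exact ⟨ϖ, L, F, O', ι, fun _ => h⟩
  choose ϖ LL hF OO ii hex using hex
  have hϖ1 : ∀ P : HeightOneSpectrum (𝓞 K), (2 : 𝓞 K) ∉ P.asIdeal → ϖ P ∈ P.asIdeal :=
    fun P h => (hex P h).1
  have hϖ2 : ∀ P : HeightOneSpectrum (𝓞 K), (2 : 𝓞 K) ∉ P.asIdeal → ϖ P ∉ P.asIdeal ^ 2 :=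
    fun P h => (hex P h).2.1
  have hcomp : ∀ P : HeightOneSpectrum (𝓞 K), (2 : 𝓞 K) ∉ P.asIdeal →
      CompP P (ϖ P) (LL P) (OO P) (ii P) := fun P h => (hex P h).2.2
  obtain ⟨S, hS, c, γ, hdat, hA⟩ := partA hLINB hINO hUSM hRec D Y hok hY hRam f hf
    (hL2M K D Y hok f hf) (hL2D K D Y hok f hf) ϖ LL OO ii hcomp
  have h2S : ∀ P ∈ S, (2 : 𝓞 K) ∉ P.asIdeal := fun P hP => h2T P (hS hP)
  refine ⟨S, hS, fun d hd => ?_⟩
  obtain ⟨⟨hd0, hdS, hdT, hdO⟩, e, he⟩ := hd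
  intro E _ _ htw
  obtain ⟨hfin, hgal, hdeg, hTsp, h2sp, hram⟩ := htw
  by_contra hne
  -- a nontrivial class
  obtain ⟨p, hp, hNp, hns, hLS⟩ := hTWS (𝓞 K) K E f d hfm hd0 hne
  have hpW : p ∈ WWN (K := K) E f ϖ S D.T' :=
    ⟨On3n.sel_mem hSPC hUNC hLDA hLDB hfm hfn hsm (fun P h => ⟨hϖ1 P h, hϖ2 P h⟩) h2S h2T'
      (fun P hP => hTsp P (hS hP)) hdS
      (fun P hPS hPT' => by
        by_cases hPT : P ∈ D.T
        · exact hdT P hPT hPS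
        · exact hdO P hPT hPT') p hp hNp hLS, hE2T K E h2sp f d e p hfm he hLS⟩
  have hloc : ∀ P ∈ S, ∀ (L : Type) [Field L] (O : ValuationSubring L) (ι : E →+* L),
      AbvV E (vP K P) L O ι → Loc L O (ι (algebraMap K E (algebraMap (𝓞 K) K (ϖ P)))) := by
    intro P hP L _ O ι hC
    exact (hSPC K P (ϖ P) (h2S P hP) (hϖ1 P (h2S P hP)) (hϖ2 P (h2S P hP)) E L O ι hC
      (hTsp P (hS hP))).loc
  obtain ⟨hm1, hm2, hm3⟩ := hE2M K E h2sp D Y hok f hf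
  obtain ⟨α, hα, hNα, hnα, hαW⟩ := gal K E two_ne_zero hfin hgal hdeg (fk K f) (hfm.map _) hfi
    (by rw [hfm.natDegree_map]; exact hodd) (WWN (K := K) E f ϖ S D.T')
    (fun p hp => ⟨hp.1.1, hp.1.2.1⟩)
    (fun p hp q hq => ⟨Z22.mul_mem hCLA hTYM hTYQ uslm hg hfm hloc p hp.1 q hq.1,
      hm1 p q hp.2 hq.2⟩)
    (fun p hp q s hs hd => ⟨Z22.sq_mem hCLA hTYS hTYQ uslm hg hfm hloc p hp.1 q s hs hd,
      hm2 p q s hs hd hp.2⟩)
    (fun p hp σ => ⟨Z22.gal_mem hfm p hp.1 σ, hm3 p σ hp.2⟩) ⟨p, hpW, hns⟩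
  obtain ⟨⟨-, -, hαc⟩, hα2⟩ := hαW
  have hL2 : Loc2 f α := hE2I K E hfin hgal h2sp f α hα2
  -- the class is that of a unit outside `S`
  have hUS1 : ∀ P : HeightOneSpectrum (𝓞 K), P ∉ S → US P.asIdeal f α := by
    intro P hPS
    by_cases hirr : Irreducible (md P.asIdeal f)
    · exact hIRU K P 1 f f α hfm hfn ⟨hfm, hfn, hirr⟩
        (fun i => by rw [sub_self, coeff_zero]; exact P.asIdeal.zero_mem) hα hNα
    have hPT' : P ∉ D.T' := by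
      intro h1
      apply hirr
      have h2 : md P.asIdeal f = md P.asIdeal (D.ρ P) := by
        ext i
        rw [Polynomial.coeff_map, Polynomial.coeff_map, Ideal.Quotient.eq, ← coeff_sub]
        exact hf.2.2.2.2 P h1 i
      rw [h2]
      exact (hok.2.2.1 P h1).2.2
    have h2P : (2 : 𝓞 K) ∉ P.asIdeal := h2T' P hPT'
    have hU : UnrV E (vP K P) := by
      refine (hram P).resolve_right fun h1 => hirr ?_
      exact (hIRS (𝓞 K) P d f hfm (by rw [hfn]; omega)).1 h1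
    obtain ⟨L, _, O', ι, hC⟩ := hEXC K P E hfin hgal
    have hUC := hUNC K P (ϖ P) h2P (hϖ1 P h2P) (hϖ2 P h2P) E L O' ι hC hU
    obtain ⟨fO, -, -, hfO, -⟩ := hUDA K P (ϖ P) L O' (ι.comp (algebraMap K E)) hUC f hfm
    have hfO' : oL O' fO = (fkE K E f).map ι := hfO.trans (Polynomial.map_map _ _ _).symm
    have h1 := (hαc L O' ι P hC).2 hPS hU hPT' fO hfO'
    rw [Polynomial.map_map] at h1
    exact hUDB K P (ϖ P) L O' (ι.comp (algebraMap K E)) hUC f hfm (hsm P) fO hfO α hα h1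
  have hcop : ∀ P ∈ D.T, IsCoprime (α.map (ii P)) (oL (OO P) ((X - C (c P)) * γ P)) := by
    intro P hP
    rw [← (hdat P hP).2.1]
    exact One86.cop_map (ii P) hα
  have hnsq : ∀ P ∈ D.T, NSq (oL (OO P) ((X - C (c P)) * γ P)) (α.map (ii P)) := by
    intro P hP
    rw [← (hdat P hP).2.1]
    exact One86.nsq_map (ii P) (hfm.map _) hNα
  have hty : ∀ P, ∃ x : Ty, P ∈ D.T →
      TyL (OO P) (ii P (algebraMap (𝓞 K) K (ϖ P))) (c P) (γ P) x (α.map (ii P)) := by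
    intro P
    by_cases hP : P ∈ D.T
    · obtain ⟨x, hx⟩ := hCLA _ _ _ (hcomp P (h2T P hP)).loc 1 (c P) (γ P) hg (hdat P hP).1 _
        (hcop P hP)
      exact ⟨x, fun _ => hx⟩
    · exact ⟨0, fun h => absurd h hP⟩
  choose x hx using hty
  obtain ⟨h3, h4⟩ := hA α hα hNα (fun P h1 => hUS1 P fun h5 => h1 (hS h5)) hL2 x hx
    (fun P hPS => by
      obtain ⟨L, _, O', ι, hC⟩ := hEXC K P E hfin hgal
      have hIC := hSPC K P (ϖ P) (h2S P hPS) (hϖ1 P (h2S P hPS)) (hϖ2 P (h2S P hPS)) E L O' ι hC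
        (hTsp P (hS hPS))
      obtain ⟨c', γ', hOk', hfac', -, -⟩ := ONEK90.locdata hINO hIC hg (hok.2.1 P (hS hPS)) hfm
        (hf.2.2.2.1 P (hS hPS))
      have hfac'' : (fkE K E f).map ι = oL O' ((X - C c') * γ') :=
        (Polynomial.map_map _ _ _).trans hfac'
      have c1 : IsCoprime (α.map (ι.comp (algebraMap K E))) (oL O' ((X - C c') * γ')) := by
        rw [← hfac']
        exact One86.cop_map (ι.comp (algebraMap K E)) hα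
      obtain ⟨y, hy⟩ := hCLA L O' _ hIC.loc 1 c' γ' hg hOk' _ c1
      have hy' : TyL O' (ι (algebraMap K E (algebraMap (𝓞 K) K (ϖ P)))) c' γ' y
          ((α.map (algebraMap K E)).map ι) := by
        rw [Polynomial.map_map]
        exact hy
      have h1 := (hαc L O' ι P hC).1 hPS c' γ' y hOk' hfac'' hy'
      have h5 := hTYI K 1 P (ϖ P) hg f hfm hfn (LL P) (OO P)
        (ii P) (hcomp P (h2S P hPS)) L O' (ι.comp (algebraMap K E)) hIC (c P) (γ P) c' γ'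
        (hdat P (hS hPS)).1 hOk' (hdat P (hS hPS)).2.1 hfac' α (x P) y hα hNα (hx P (hS hPS)) hy
      rw [h5, h1])
    (fun P hPT hPS => (hTYU _ _ _ (hcomp P (h2T P hPT)).loc 1 (c P) (γ P) hg (hdat P hPT).1 _
      (x P) (hcop P hPT) (hnsq P hPT) (hx P hPT)).1 (((hdat P hPT).2.2.1 α hα).2 (hUS1 P hPS)))
  exact hbad ⟨α, hα, hNα, hnα, h3, h4⟩

end Pool.RZT
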