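import Pool.Agent.H70.RZT.S
import Pool.Agent.H77.T1.ZRAM

/-!
# RZT, RAMN: almost all primes are unramified
-/

set_option autoImplicit false

namespace Pool.RZT

open Polynomial Matrix NumberField IsDedekindDomain Pool.HYP Pool.TOW Pool.AVS Pool.T1 Pool.NF
  IsLocalRing

open Zram in
/-- The same without the place at infinity. -/
theorem ramGen (R : Type) [CommRing R] [IsDedekindDomain R] (K : Type) [Field K] [Algebra R K]
    [IsFractionRing R K] (E : Type) [Field E] [Algebra K E] (hfd : FiniteDimensional K E)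
    (hgal : IsGalois K E) :
    ∃ Z : Finset (HeightOneSpectrum R), ∀ P : HeightOneSpectrum R, P ∉ Z →
      UnrV E (vP K P) := by
  classical
  obtain ⟨h, δ, u, v, hm, hδ0, hδ, hi, hd, hs⟩ := prim R K E
  have h1 : Ideal.span {δ} ≠ (0 : Ideal R) := by
    rw [Ne, Ideal.zero_eq_bot, Ideal.span_singleton_eq_bot]
    exact hδ0
  have hfin := Ideal.finite_factors h1
  refine ⟨hfin.toFinset, fun P hP => ?_⟩
  have hδP : δ ∉ P.asIdeal := fun h2 => hP (hfin.mem_toFinset.2 (Ideal.dvd_span_singleton.2 h2))
  have hmem : ∀ a : R, algebraMap R K a ∈ vP K P := fun a => P.valuation_le_one a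
  set i : R →+* vP K P := (algebraMap R K).codRestrict (vP K P).toSubring hmem with hi'
  have hii : (algebraMap (vP K P) K).comp i = algebraMap R K := RingHom.ext fun a => rfl
  have hu : IsUnit (i δ) := by
    have h2 : P.valuation K (algebraMap R K δ) = 1 := P.valuation_eq_one_iff_notMem.2 hδP
    have h3 : (algebraMap R K δ)⁻¹ ∈ vP K P := by
      show P.valuation K (algebraMap R K δ)⁻¹ ≤ 1
      rw [map_inv₀, h2, inv_one]
    have h4 : algebraMap R K δ ≠ 0 := fun h =>
      hδ0 (IsFractionRing.injective R K (h.trans (map_zero _).symm))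
    exact IsUnit.of_mul_eq_one (⟨_, h3⟩ : vP K P) (Subtype.ext (mul_inv_cancel₀ h4))
  obtain ⟨δ', hδ'⟩ := hu.exists_left_inv
  obtain ⟨ϖ, hϖ⟩ := P.valuation_exists_uniformizer K
  have hϖ1 : P.valuation K ϖ < 1 := by
    rw [hϖ, ← WithZero.exp_zero, WithZero.exp_lt_exp]
    norm_num
  have hϖ0 : ϖ ≠ 0 := by
    rintro rfl
    rw [map_zero] at hϖ
    exact WithZero.exp_ne_zero hϖ.symm
  have hgen : Ideal.span {(⟨ϖ, hϖ1.le⟩ : vP K P)} = maximalIdeal (vP K P) := by
    ext x
    rw [Ideal.mem_span_singleton, mem_maximalIdeal, mem_nonunits_iff]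
    constructor
    · rintro ⟨y, rfl⟩ h2
      have h3 : P.valuation K (ϖ * (y : K)) = 1 := by
        obtain ⟨z, hz⟩ := h2.exists_right_inv
        have h4 : P.valuation K (ϖ * (y : K)) * P.valuation K (z : K) = 1 := by
          rw [← map_mul, show ϖ * (y : K) * (z : K) = 1 from congrArg (fun t : vP K P => (t : K)) hz,
            map_one]
        have h5 : P.valuation K (ϖ * (y : K)) ≤ P.valuation K ϖ := by
          rw [map_mul]
          exact mul_le_of_le_one_right' y.2
        have h6 : P.valuation K (ϖ * (y : K)) * P.valuation K (z : K) < 1 :=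
          lt_of_le_of_lt (mul_le_of_le_one_right' z.2) (lt_of_le_of_lt h5 hϖ1)
        exact absurd h4 h6.ne
      have h5 : P.valuation K (ϖ * (y : K)) ≤ P.valuation K ϖ := by
        rw [map_mul]
        exact mul_le_of_le_one_right' y.2
      exact absurd h3 (lt_of_le_of_lt h5 hϖ1).ne
    · intro h2
      have h3 : P.valuation K (x : K) < 1 := by
        refine lt_of_le_of_ne x.2 fun h4 => h2 ?_
        have hx0 : (x : K) ≠ 0 := by
          intro h0
          rw [h0, map_zero] at h4
          exact zero_ne_one h4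
        have h5 : (x : K)⁻¹ ∈ vP K P := by
          show P.valuation K (x : K)⁻¹ ≤ 1
          rw [map_inv₀, h4, inv_one]
        exact IsUnit.of_mul_eq_one (⟨_, h5⟩ : vP K P) (Subtype.ext (mul_inv_cancel₀ hx0))
      have h6 : (x : K) / ϖ ∈ vP K P := by
        show P.valuation K ((x : K) / ϖ) ≤ 1
        rw [map_div₀]
        refine div_le_one_of_le₀ ?_ zero_le
        rw [hϖ]
        by_cases hx0 : P.valuation K (x : K) = 0
        · rw [hx0]
          exact zero_le
        · rw [← WithZero.exp_log hx0, WithZero.exp_le_exp]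
          rw [← WithZero.exp_log hx0, ← WithZero.exp_zero, WithZero.exp_lt_exp] at h3
          omega
      exact ⟨⟨_, h6⟩, Subtype.ext (mul_div_cancel₀ _ hϖ0).symm⟩
  have hmap : (h.map i).map (algebraMap (vP K P) K) = fk K h := by
    rw [Polynomial.map_map, hii]
  refine unr_of (vP K P) hgen (fun h0 => hϖ0 (congrArg (fun t : vP K P => (t : K)) h0))
    (h := h.map i) (u := C δ' * u.map i) (v := C δ' * v.map i) (hm.map i) ?_ ?_ ?_ ?_
  · have h2 := congrArg (Polynomial.map i) hδ
    rw [Polynomial.map_add, Polynomial.map_mul, Polynomial.map_mul, Polynomial.map_C,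
      ← Polynomial.derivative_map] at h2
    rw [mul_assoc, mul_assoc, ← mul_add, h2, ← C_mul, hδ', C_1]
  · rw [hmap]
    exact hi
  · rw [hmap]
    exact hd
  · rw [hmap]
    exact hs


theorem ramn : RAMNStmt := by
  intro K _ _ E _ _ hfd hgal
  exact ramGen (𝓞 K) K E hfd hgal

end Pool.RZT
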